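import Mathlib
import Pool.Agent.Helper51.SymbolDefs
import Pool.Agent.Helper51.CompositeDegree

/-!
# Large subspaces of the generic symbol algebra on which the reduced trace of `v ^ r` vanishes

Let `p` be a prime, `2 ≤ r ≤ p - 1` and let `p` not be congruent to `1` modulo `r`. In the generic
symbol algebra `(α, β)_p`, generated by `x`, `y` with `x ^ p = α`, `y ^ p = β`, `y x = ω x y`, let `V`
be spanned by the `y ^ i x ^ j` where `j` runs through an arithmetic progression with
`⌊(p - 2) / r⌋ + 1` terms, no `r` of which have sum `0` modulo `p`.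
-/

set_option autoImplicit false

noncomputable section

namespace Pool.Agent.Results.MP_064e41_al.TraceVanishing

open Pool.Agent.Helper51.SymbolDefs Pool.Agent.Helper51.CompositeDegree

section general

variable {F : Type} [Field F] {n : ℕ} {ξ a b : F}

theorem v_u (hξ : ξ ≠ 0) : gv F n ξ a b * gu F n ξ a b = ξ⁻¹ • (gu F n ξ a b * gv F n ξ a b) := by
  rw [gu_gv, smul_smul, inv_mul_cancel₀ hξ, one_smul]

theorem isUnit_u (hn : 0 < n) (ha : a ≠ 0) : IsUnit (gu F n ξ a b) := isUnit_of_pow hn ha gu_pow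

theorem isUnit_v (hn : 0 < n) (hb : b ≠ 0) : IsUnit (gv F n ξ a b) := isUnit_of_pow hn hb gv_pow

theorem u_gm (g : Fin n × Fin n) : gu F n ξ a b * gm F n ξ a b g =
    ξ ^ g.2.val • (gm F n ξ a b g * gu F n ξ a b) := by
  have h := pow_swap ξ (gv F n ξ a b) (gu F n ξ a b) gu_gv g.2.val 1
  rw [pow_one, one_mul] at h
  rw [gm, ← mul_assoc, ← pow_succ', pow_succ, mul_assoc, h, mul_smul_comm, mul_assoc]

theorem v_gm (hξ : ξ ≠ 0) (g : Fin n × Fin n) : gv F n ξ a b * gm F n ξ a b g =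
    ξ⁻¹ ^ g.1.val • (gm F n ξ a b g * gv F n ξ a b) := by
  have h := pow_swap ξ⁻¹ (gu F n ξ a b) (gv F n ξ a b) (v_u hξ) g.1.val 1
  rw [pow_one, one_mul] at h
  rw [gm, ← mul_assoc, h, smul_mul_assoc, mul_assoc, mul_assoc, ← pow_succ', pow_succ]

theorem pow_inj {ζ : F} (hζ : IsPrimitiveRoot ζ n) {i j : Fin n} (h : ζ ^ i.val = ζ ^ j.val) :
    i = j := Fin.ext (hζ.pow_inj i.2 j.2 h)

theorem isUnit_gm (hn : 0 < n) (ha : a ≠ 0) (hb : b ≠ 0) (g : Fin n × Fin n) :
    IsUnit (gm F n ξ a b g) := ((isUnit_u hn ha).pow _).mul ((isUnit_v hn hb).pow _)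

theorem sep' (hn : 0 < n) (hξ : IsPrimitiveRoot ξ n) (ha : a ≠ 0) (hb : b ≠ 0)
    (g h : Fin n × Fin n) (hgh : g ≠ h) : ∃ (r s : SymbolAlg F n ξ a b) (χ : Fin n × Fin n → F),
      r * s = 1 ∧ s * r = 1 ∧ (∀ k, r * gm F n ξ a b k = χ k • (gm F n ξ a b k * r)) ∧
      χ g ≠ χ h := by
  by_cases h1 : g.1 = h.1
  · have h2 : g.2 ≠ h.2 := fun e => hgh (Prod.ext h1 e)
    obtain ⟨w, hw⟩ := isUnit_u (F := F) (ξ := ξ) (b := b) hn ha
    refine ⟨w, ↑w⁻¹, fun k => ξ ^ k.2.val, w.mul_inv, w.inv_mul, fun k => ?_,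
      fun e => h2 (pow_inj hξ e)⟩
    rw [hw]
    exact u_gm k
  · obtain ⟨w, hw⟩ := isUnit_v (F := F) (ξ := ξ) (a := a) hn hb
    refine ⟨w, ↑w⁻¹, fun k => ξ⁻¹ ^ k.1.val, w.mul_inv, w.inv_mul, fun k => ?_,
      fun e => h1 (pow_inj hξ.inv e)⟩
    rw [hw]
    exact v_gm (hξ.ne_zero hn.ne') k

theorem sep (hn : 0 < n) (hξ : IsPrimitiveRoot ξ n) (ha : a ≠ 0) (hb : b ≠ 0)
    (g h : Fin n × Fin n) (hgh : g ≠ h) : ∃ (r s : SymbolAlg F n ξ a b) (χ : Fin n × Fin n → F),
      r * s = 1 ∧ (∀ k, r * gm F n ξ a b k = χ k • (gm F n ξ a b k * r)) ∧ χ g ≠ χ h := by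
  obtain ⟨r, s, χ, h1, _, h2, h3⟩ := sep' hn hξ ha hb g h hgh
  exact ⟨r, s, χ, h1, h2, h3⟩

theorem coeff_zero (hn : 2 ≤ n) (hξ : IsPrimitiveRoot ξ n) (ha : a ≠ 0) (hb : b ≠ 0)
    (c : Fin n × Fin n → F) (hc : ∑ g, c g • gm F n ξ a b g = 0) : c = 0 := by
  classical
  have := nontrivial_symb (F := F) (ξ := ξ) (a := a) (b := b) (by omega) hξ
  by_contra hne
  have h1 : (1 : SymbolAlg F n ξ a b) ∈ (⊥ : TwoSidedIdeal (SymbolAlg F n ξ a b)) := by
    refine one_mem_of_monomials (gm F n ξ a b) (isUnit_gm (by omega) ha hb)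
      (sep (by omega) hξ ha hb) ⊥ _ c rfl ?_ ?_
    · rw [Finset.card_pos]
      obtain ⟨g, hg⟩ := Function.ne_iff.1 hne
      exact ⟨g, by simpa using hg⟩
    · rw [hc]
      exact zero_mem _
  rw [TwoSidedIdeal.mem_bot] at h1
  exact one_ne_zero h1

theorem linearIndependent_gm (hn : 2 ≤ n) (hξ : IsPrimitiveRoot ξ n) (ha : a ≠ 0) (hb : b ≠ 0) :
    LinearIndependent F (gm F n ξ a b) := by
  rw [Fintype.linearIndependent_iff]
  intro c hc g
  rw [coeff_zero hn hξ ha hb c hc]
  rfl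

theorem finrank_eq (hn : 2 ≤ n) (hξ : IsPrimitiveRoot ξ n) (ha : a ≠ 0) (hb : b ≠ 0) :
    Module.finrank F (SymbolAlg F n ξ a b) = n ^ 2 := by
  have h0 : ξ ≠ 0 := hξ.ne_zero (by omega)
  have := Module.finrank_eq_card_basis
    (Module.Basis.mk (linearIndependent_gm hn hξ ha hb) (span_gm hn h0).ge)
  rw [this]
  simp [pow_two]

theorem isCentral (hn : 2 ≤ n) (hξ : IsPrimitiveRoot ξ n) (ha : a ≠ 0) (hb : b ≠ 0) :
    Algebra.IsCentral F (SymbolAlg F n ξ a b) := by
  constructor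
  intro z hz
  have h0 : ξ ≠ 0 := hξ.ne_zero (by omega)
  obtain ⟨c, rfl⟩ := exists_coeff hn h0 z
  rw [Subalgebra.mem_center_iff] at hz
  have hu := hz (gu F n ξ a b)
  have hv := hz (gv F n ξ a b)
  obtain ⟨w, hw⟩ := isUnit_u (F := F) (ξ := ξ) (b := b) (by omega : 0 < n) ha
  obtain ⟨w', hw'⟩ := isUnit_v (F := F) (ξ := ξ) (a := a) (by omega : 0 < n) hb
  have hu' : ∑ g, ((ξ ^ g.2.val - 1) * c g) • gm F n ξ a b g = 0 := by
    have h : (∑ g, ((ξ ^ g.2.val - 1) * c g) • gm F n ξ a b g) * gu F n ξ a b = 0 := by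
      rw [Finset.mul_sum, Finset.sum_mul] at hu
      rw [Finset.sum_mul, ← sub_eq_zero.2 hu, ← Finset.sum_sub_distrib]
      refine Finset.sum_congr rfl fun g _ => ?_
      rw [mul_smul_comm, u_gm, smul_mul_assoc, smul_mul_assoc, smul_smul, ← sub_smul]
      congr 1
      ring
    rw [← hw] at h
    simpa using congrArg (· * (↑w⁻¹ : SymbolAlg F n ξ a b)) h
  have hv' : ∑ g, ((ξ⁻¹ ^ g.1.val - 1) * c g) • gm F n ξ a b g = 0 := by
    have h : (∑ g, ((ξ⁻¹ ^ g.1.val - 1) * c g) • gm F n ξ a b g) * gv F n ξ a b = 0 := by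
      rw [Finset.mul_sum, Finset.sum_mul] at hv
      rw [Finset.sum_mul, ← sub_eq_zero.2 hv, ← Finset.sum_sub_distrib]
      refine Finset.sum_congr rfl fun g _ => ?_
      rw [mul_smul_comm, v_gm h0, smul_mul_assoc, smul_mul_assoc, smul_smul, ← sub_smul]
      congr 1
      ring
    rw [← hw'] at h
    simpa using congrArg (· * (↑w'⁻¹ : SymbolAlg F n ξ a b)) h
  have e1 := coeff_zero hn hξ ha hb _ hu'
  have e2 := coeff_zero hn hξ ha hb _ hv'
  have hc : ∀ g : Fin n × Fin n, g ≠ (⟨0, by omega⟩, ⟨0, by omega⟩) → c g = 0 := by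
    intro g hg
    by_contra hcg
    apply hg
    have f1 := congrFun e1 g
    have f2 := congrFun e2 g
    simp only [Pi.zero_apply, mul_eq_zero, hcg, or_false, sub_eq_zero] at f1 f2
    refine Prod.ext (pow_inj hξ.inv ?_) (pow_inj hξ ?_)
    · rw [f2, pow_zero]
    · rw [f1, pow_zero]
  rw [Algebra.mem_bot]
  refine ⟨c (⟨0, by omega⟩, ⟨0, by omega⟩), ?_⟩
  rw [Finset.sum_eq_single (⟨0, by omega⟩, ⟨0, by omega⟩)]
  · simp [gm, Algebra.algebraMap_eq_smul_one]
  · intro g _ hg
    rw [hc g hg, zero_smul]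
  · simp

/-- A trace function vanishes on the monomials other than `1`. -/
theorem trace_gm {M : Type*} [AddCommGroup M] [Module F M] (hn : 2 ≤ n)
    (hξ : IsPrimitiveRoot ξ n) (ha : a ≠ 0) (hb : b ≠ 0) (τ : SymbolAlg F n ξ a b →ₗ[F] M)
    (hτ : ∀ x y, τ (x * y) = τ (y * x)) (g : Fin n × Fin n)
    (hg : g ≠ (⟨0, by omega⟩, ⟨0, by omega⟩)) : τ (gm F n ξ a b g) = 0 := by
  obtain ⟨r, s, χ, hrs, hsr, hr, hχ⟩ := sep' (by omega) hξ ha hb g _ hg
  have h1 : gm F n ξ a b (⟨0, by omega⟩, ⟨0, by omega⟩) = 1 := by simp [gm]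
  have hχ0 : χ (⟨0, by omega⟩, ⟨0, by omega⟩) = 1 := by
    have := nontrivial_symb (F := F) (ξ := ξ) (a := a) (b := b) (by omega) hξ
    have h := hr (⟨0, by omega⟩, ⟨0, by omega⟩)
    rw [h1, mul_one, one_mul] at h
    have h' := congrArg (· * s) h
    simp only [smul_mul_assoc, hrs] at h'
    have h'' : algebraMap F (SymbolAlg F n ξ a b) 1 =
        algebraMap F (SymbolAlg F n ξ a b) (χ (⟨0, by omega⟩, ⟨0, by omega⟩)) := by
      rw [map_one, Algebra.algebraMap_eq_smul_one]
      exact h'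
    exact ((algebraMap F (SymbolAlg F n ξ a b)).injective h'').symm
  rw [hχ0] at hχ
  have h2 : τ (gm F n ξ a b g) = χ g • τ (gm F n ξ a b g) := by
    calc τ (gm F n ξ a b g) = τ (s * (r * gm F n ξ a b g)) := by
          rw [← mul_assoc, hsr, one_mul]
      _ = τ ((r * gm F n ξ a b g) * s) := hτ _ _
      _ = χ g • τ (gm F n ξ a b g) := by
          rw [hr, smul_mul_assoc, mul_assoc, hrs, mul_one, map_smul]
  have h3 : (1 - χ g) • τ (gm F n ξ a b g) = 0 := by
    rw [sub_smul, one_smul, ← h2, sub_self]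
  rcases smul_eq_zero.1 h3 with h | h
  · exact absurd (sub_eq_zero.1 h).symm hχ
  · exact h

/-- A trace function is determined by its value at `1`. -/
theorem trace_unique {M : Type*} [AddCommGroup M] [Module F M] (hn : 2 ≤ n)
    (hξ : IsPrimitiveRoot ξ n) (ha : a ≠ 0) (hb : b ≠ 0) (τ τ' : SymbolAlg F n ξ a b →ₗ[F] M)
    (hτ : ∀ x y, τ (x * y) = τ (y * x)) (hτ' : ∀ x y, τ' (x * y) = τ' (y * x))
    (h1 : τ 1 = τ' 1) : τ = τ' := by
  refine LinearMap.ext_on_range (span_gm hn (hξ.ne_zero (by omega))) fun g => ?_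
  by_cases hg : g = (⟨0, by omega⟩, ⟨0, by omega⟩)
  · have h2 : gm F n ξ a b g = 1 := by rw [hg]; simp [gm]
    rw [h2, h1]
  · rw [trace_gm hn hξ ha hb τ hτ g hg, trace_gm hn hξ ha hb τ' hτ' g hg]

/-- The reduced trace of an algebra of degree `n` over a field whose characteristic does not divide
`n`: the trace of the left multiplication, divided by `n`. -/
def redTrace (F A : Type) [Field F] [Ring A] [Algebra F A] (n : ℕ) : A →ₗ[F] F :=
  (n : F)⁻¹ • (LinearMap.trace F A ∘ₗ (Algebra.lmul F A).toLinearMap)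

theorem redTrace_apply (F A : Type) [Field F] [Ring A] [Algebra F A] (n : ℕ) (x : A) :
    redTrace F A n x = (n : F)⁻¹ * LinearMap.trace F A (Algebra.lmul F A x) := rfl

theorem redTrace_comm (x y : SymbolAlg F n ξ a b) :
    redTrace F (SymbolAlg F n ξ a b) n (x * y) = redTrace F (SymbolAlg F n ξ a b) n (y * x) := by
  rw [redTrace_apply, redTrace_apply, map_mul (Algebra.lmul F _), map_mul (Algebra.lmul F _),
    LinearMap.trace_mul_comm]

theorem redTrace_one (hn : 2 ≤ n) (hξ : IsPrimitiveRoot ξ n) (hnF : (n : F) ≠ 0) (ha : a ≠ 0)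
    (hb : b ≠ 0) : redTrace F (SymbolAlg F n ξ a b) n 1 = n := by
  have := finite_symb (F := F) (ξ := ξ) (a := a) (b := b) hn (hξ.ne_zero (by omega))
  rw [redTrace_apply, map_one, LinearMap.trace_one, finrank_eq hn hξ ha hb]
  push_cast
  field_simp

/-- The trace of the image of an element under a representation of degree `n` over an extension
field is its reduced trace. -/
theorem redTrace_eq (hn : 2 ≤ n) (hξ : IsPrimitiveRoot ξ n) (hnF : (n : F) ≠ 0) (ha : a ≠ 0)
    (hb : b ≠ 0) (K : Type) [Field K] [Algebra F K]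
    (f : SymbolAlg F n ξ a b →ₐ[F] Matrix (Fin n) (Fin n) K) (x : SymbolAlg F n ξ a b) :
    (f x).trace = algebraMap F K (redTrace F (SymbolAlg F n ξ a b) n x) := by
  let τ : SymbolAlg F n ξ a b →ₗ[F] K := Matrix.traceLinearMap (Fin n) F K ∘ₗ f.toLinearMap
  let τ' : SymbolAlg F n ξ a b →ₗ[F] K :=
    (Algebra.linearMap F K) ∘ₗ redTrace F (SymbolAlg F n ξ a b) n
  have h : τ = τ' := by
    refine trace_unique hn hξ ha hb τ τ' (fun x y => ?_) (fun x y => ?_) ?_
    · change (f (x * y)).trace = (f (y * x)).trace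
      rw [map_mul, map_mul, Matrix.trace_mul_comm]
    · change algebraMap F K _ = algebraMap F K _
      rw [redTrace_comm]
    · change (f 1).trace = algebraMap F K _
      rw [map_one, redTrace_one hn hξ hnF ha hb, Matrix.trace_one, Fintype.card_fin, map_natCast]
  exact LinearMap.congr_fun h x

/-! ### The subspace -/

/-- `z = m c + s` with `s ≤ m f`. -/
def Prog (n c f m : ℕ) (z : ZMod n) : Prop := ∃ s : ℕ, s ≤ m * f ∧ z = (m * c + s : ℕ)

/-- The span of the monomials with exponent of `v` in the progression. -/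
def U (F : Type) [Field F] (n : ℕ) (ξ a b : F) (c f m : ℕ) : Submodule F (SymbolAlg F n ξ a b) :=
  Submodule.span F {x | ∃ g : Fin n × Fin n, Prog n c f m (g.2.val : ℕ) ∧ x = gm F n ξ a b g}

theorem U_mul (hn : 0 < n) (hξ : ξ ≠ 0) (c f m m' : ℕ) (x y : SymbolAlg F n ξ a b)
    (hx : x ∈ U F n ξ a b c f m) (hy : y ∈ U F n ξ a b c f m') :
    x * y ∈ U F n ξ a b c f (m + m') := by
  induction hx using Submodule.span_induction with
  | mem x hx =>
    induction hy using Submodule.span_induction with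
    | mem y hy =>
      obtain ⟨g, ⟨s, hs, hg⟩, rfl⟩ := hx
      obtain ⟨h, ⟨t, ht, hh⟩, rfl⟩ := hy
      obtain ⟨d, hd⟩ := mono_mul hξ (gu F n ξ a b) (gv F n ξ a b) gu_pow gv_pow gu_gv g.1.val
        g.2.val h.1.val h.2.val
      rw [gm, gm, hd]
      refine Submodule.smul_mem _ _ (Submodule.subset_span ?_)
      refine ⟨(⟨(g.1.val + h.1.val) % n, Nat.mod_lt _ hn⟩,
        ⟨(g.2.val + h.2.val) % n, Nat.mod_lt _ hn⟩), ⟨s + t, ?_, ?_⟩, rfl⟩
      · rw [add_mul]
        omega
      · simp only [ZMod.natCast_mod]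
        push_cast at hg hh ⊢
        rw [hg, hh]
        ring
    | zero => rw [mul_zero]; exact zero_mem _
    | add y z _ _ h1 h2 => rw [mul_add]; exact add_mem h1 h2
    | smul c y _ h1 => rw [mul_smul_comm]; exact Submodule.smul_mem _ _ h1
  | zero => rw [zero_mul]; exact zero_mem _
  | add x z _ _ h1 h2 => rw [add_mul]; exact add_mem h1 h2
  | smul c x _ h1 => rw [smul_mul_assoc]; exact Submodule.smul_mem _ _ h1

theorem U_pow (hn : 0 < n) (hξ : ξ ≠ 0) (c f m : ℕ) (x : SymbolAlg F n ξ a b)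
    (hx : x ∈ U F n ξ a b c f 1) : x ^ m ∈ U F n ξ a b c f m := by
  induction m with
  | zero =>
    refine Submodule.subset_span ⟨(⟨0, hn⟩, ⟨0, hn⟩), ⟨0, by omega, by simp⟩, ?_⟩
    simp [gm]
  | succ m ih =>
    rw [pow_succ]
    exact U_mul hn hξ c f m 1 _ _ ih hx

theorem trace_U {M : Type*} [AddCommGroup M] [Module F M] (hn : 2 ≤ n)
    (hξ : IsPrimitiveRoot ξ n) (ha : a ≠ 0) (hb : b ≠ 0) (τ : SymbolAlg F n ξ a b →ₗ[F] M)
    (hτ : ∀ x y, τ (x * y) = τ (y * x)) (c f m : ℕ) (hm : ¬ Prog n c f m 0)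
    (x : SymbolAlg F n ξ a b) (hx : x ∈ U F n ξ a b c f m) : τ x = 0 := by
  have h : U F n ξ a b c f m ≤ LinearMap.ker τ := by
    refine Submodule.span_le.2 ?_
    rintro _ ⟨g, hg, rfl⟩
    refine trace_gm hn hξ ha hb τ hτ g ?_
    rintro rfl
    apply hm
    simpa using hg
  exact h hx

theorem le_finrank_U (hn : 2 ≤ n) (hξ : IsPrimitiveRoot ξ n) (ha : a ≠ 0) (hb : b ≠ 0)
    (c f : ℕ) (hf : f < n) : Module.finrank F (U F n ξ a b c f 1) = n * (f + 1) := by
  let j : Fin n × Fin (f + 1) → Fin n × Fin n := fun p =>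
    (p.1, ⟨(c + p.2.val) % n, Nat.mod_lt _ (by omega)⟩)
  have hj : Function.Injective j := by
    rintro ⟨p, q⟩ ⟨p', q'⟩ h
    simp only [j, Prod.mk.injEq, Fin.mk.injEq] at h
    have h2 : q.val = q'.val := by
      have h3 := h.2
      have hq := q.2
      have hq' := q'.2
      have h4 : (c + q.val) ≡ (c + q'.val) [MOD n] := h3
      have h5 : q.val ≡ q'.val [MOD n] := Nat.ModEq.add_left_cancel' c h4
      exact Nat.ModEq.eq_of_lt_of_lt h5 (by omega) (by omega)
    exact Prod.ext h.1 (Fin.ext h2)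
  have hU : U F n ξ a b c f 1 = Submodule.span F (Set.range (gm F n ξ a b ∘ j)) := by
    rw [U]
    congr 1
    ext x
    constructor
    · rintro ⟨g, ⟨s, hs, hg⟩, rfl⟩
      refine ⟨(g.1, ⟨s, by omega⟩), ?_⟩
      have : j (g.1, ⟨s, by omega⟩) = g := by
        refine Prod.ext rfl (Fin.ext ?_)
        change (c + s) % n = g.2.val
        rw [one_mul] at hg
        have h1 := (ZMod.natCast_eq_natCast_iff' _ _ _).1 hg
        rw [← h1, Nat.mod_eq_of_lt g.2.2]
      rw [Function.comp_apply, this]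
    · rintro ⟨⟨p, q⟩, rfl⟩
      refine ⟨j (p, q), ⟨q.val, by omega, ?_⟩, rfl⟩
      simp only [j, ZMod.natCast_mod, one_mul]
  rw [hU, finrank_span_eq_card ((linearIndependent_gm hn hξ ha hb).comp j hj)]
  simp

end general

/-! ### The generic symbol algebra -/

section generic

variable (k : Type) [Field k]

/-- The value group. -/
abbrev Γ : Type := Lex (Fin 2 → ℤ)

/-- The basis of the value group. -/
def E (i : Fin 2) : Γ := toLex (Pi.single i 1)

/-- The two indeterminates in the field of Hahn series. -/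
def T (i : Fin 2) : HahnSeries Γ k := HahnSeries.single (E i) 1

/-- The exponent of a monomial. -/
def expo : (Fin 2 →₀ ℕ) →+ Γ where
  toFun m := toLex fun i => (m i : ℤ)
  map_zero' := rfl
  map_add' m m' := by
    apply ofLex.injective
    funext i
    change ((m i + m' i : ℕ) : ℤ) = (m i : ℤ) + (m' i : ℤ)
    push_cast
    rfl

theorem expo_apply (m : Fin 2 →₀ ℕ) (i : Fin 2) : ofLex (expo m) i = (m i : ℤ) := rfl

theorem expo_injective : Function.Injective expo := by
  intro m m' h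
  ext i
  have := congrFun (congrArg ofLex h) i
  rw [expo_apply, expo_apply] at this
  exact_mod_cast this

theorem expo_eq (m : Fin 2 →₀ ℕ) : expo m = m 0 • E 0 + m 1 • E 1 := by
  apply ofLex.injective
  funext j
  rw [expo_apply]
  change (m j : ℤ) = m 0 • (Pi.single 0 1 : Fin 2 → ℤ) j + m 1 • (Pi.single 1 1 : Fin 2 → ℤ) j
  fin_cases j <;> simp

/-- The embedding of the polynomial ring. -/
def polyMap : MvPolynomial (Fin 2) k →ₐ[k] HahnSeries Γ k := MvPolynomial.aeval (T k)

theorem polyMap_monomial (m : Fin 2 →₀ ℕ) (r : k) :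
    polyMap k (MvPolynomial.monomial m r) = HahnSeries.single (expo m) r := by
  rw [polyMap, MvPolynomial.aeval_monomial, Finsupp.prod_fintype _ _ (fun _ => pow_zero _),
    Fin.prod_univ_two, T, T, HahnSeries.single_pow, HahnSeries.single_pow,
    HahnSeries.single_mul_single, HahnSeries.algebraMap_apply, HahnSeries.C_apply,
    HahnSeries.single_mul_single, expo_eq]
  simp

theorem polyMap_coeff (p : MvPolynomial (Fin 2) k) (m : Fin 2 →₀ ℕ) :
    (polyMap k p).coeff (expo m) = p.coeff m := by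
  induction p using MvPolynomial.induction_on' with
  | monomial s r =>
    rw [polyMap_monomial, MvPolynomial.coeff_monomial]
    by_cases hs : s = m
    · subst hs
      rw [HahnSeries.coeff_single_same, if_pos rfl]
    · rw [HahnSeries.coeff_single_of_ne (fun e => hs (expo_injective e).symm), if_neg hs]
  | add p q hp hq =>
    rw [map_add, HahnSeries.coeff_add, hp, hq, MvPolynomial.coeff_add]

theorem polyMap_injective : Function.Injective (polyMap k) := by
  rw [injective_iff_map_eq_zero]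
  intro p hp
  ext m
  rw [← polyMap_coeff, hp]
  simp

variable (F : Type) [Field F] [Algebra (MvPolynomial (Fin 2) k) F]
  [IsFractionRing (MvPolynomial (Fin 2) k) F]

/-- The image of a polynomial in the rational function field. -/
abbrev ι (f : MvPolynomial (Fin 2) k) : F := algebraMap (MvPolynomial (Fin 2) k) F f

/-- The embedding of the rational function field. -/
def ratMap : F →+* HahnSeries Γ k :=
  IsFractionRing.lift (A := MvPolynomial (Fin 2) k) (g := (polyMap k).toRingHom)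
    (polyMap_injective k)

theorem ratMap_algebraMap (p : MvPolynomial (Fin 2) k) :
    ratMap k F (ι k F p) = polyMap k p :=
  IsFractionRing.lift_algebraMap _ _

theorem ratMap_X (i : Fin 2) : ratMap k F (ι k F (MvPolynomial.X i)) = T k i := by
  rw [ratMap_algebraMap, polyMap, MvPolynomial.aeval_X]

theorem T_ne_zero (i : Fin 2) : T k i ≠ 0 := HahnSeries.single_ne_zero one_ne_zero

theorem X_ne_zero (i : Fin 2) : ι k F (MvPolynomial.X i) ≠ 0 :=
  fun h => T_ne_zero k i (by rw [← ratMap_X k F, h, map_zero])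

theorem primitive (p : ℕ) (ω : k) (hω : IsPrimitiveRoot ω p) :
    IsPrimitiveRoot (ι k F (MvPolynomial.C ω)) p :=
  (hω.map_of_injective (f := MvPolynomial.C (σ := Fin 2))
    (MvPolynomial.C_injective (Fin 2) k)).map_of_injective
      (IsFractionRing.injective (MvPolynomial (Fin 2) k) F)

theorem T_order (i : Fin 2) : (T k i).order = E i := HahnSeries.order_single one_ne_zero

/-- The coordinates of the value group. -/
def coord (i : Fin 2) : Γ →+ ℤ where
  toFun g := ofLex g i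
  map_zero' := rfl
  map_add' _ _ := rfl

theorem coord_E (i j : Fin 2) : coord i (E j) = if i = j then 1 else 0 := by
  change (Pi.single j 1 : Fin 2 → ℤ) i = _
  rw [Pi.single_apply]

theorem isDivisionAlg_generic (p : ℕ) (hp : 2 ≤ p) (ω : k) (hω : IsPrimitiveRoot ω p) :
    IsDivisionAlg (SymbolAlg F p (ι k F (MvPolynomial.C ω)) (ι k F (MvPolynomial.X 1))
      (ι k F (MvPolynomial.X 0))) := by
  set ξ := ι k F (MvPolynomial.C ω) with hξdef
  set β := ι k F (MvPolynomial.X 1) with hβdef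
  set α := ι k F (MvPolynomial.X 0) with hαdef
  have hξ : IsPrimitiveRoot ξ p := primitive k F p ω hω
  have hξ0 := hξ.ne_zero (by omega)
  let K := HahnSeries Γ k
  let φ := ratMap k F
  have hξ' : IsPrimitiveRoot (φ ξ) p := hξ.map_of_injective φ.injective
  let B := SymbolAlg K p (φ ξ) (φ β) (φ α)
  have hβ' : φ β = T k 1 := ratMap_X k F 1
  have hα' : φ α = T k 0 := ratMap_X k F 0
  have hB : IsDivisionAlg B := by
    refine isDiv_symb hp hξ' ?_ ?_ (coord 1) (coord 0) ?_ ?_ ?_ ?_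
    · rw [hβ']; exact T_ne_zero k 1
    · rw [hα']; exact T_ne_zero k 0
    · rw [hβ', T_order, coord_E]; rfl
    · rw [hα', T_order, coord_E]; rfl
    · rw [hβ', T_order, coord_E]; rfl
    · rw [hα', T_order, coord_E]; rfl
  let : Algebra F B := Algebra.compHom B φ
  have hsm : ∀ (c : F) (x : B), c • x = φ c • x := fun c x => rfl
  let Φ : SymbolAlg F p ξ β α →ₐ[F] B :=
    lift (gu K p _ _ _) (gv K p _ _ _) gu_pow gv_pow gu_gv
  have hΦu : Φ (gu _ _ _ _ _) = gu K p _ _ _ := by
    refine (RingQuot.liftAlgHom_mkAlgHom_apply _ _ _ _).trans ?_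
    simp
  have hΦv : Φ (gv _ _ _ _ _) = gv K p _ _ _ := by
    refine (RingQuot.liftAlgHom_mkAlgHom_apply _ _ _ _).trans ?_
    simp
  have hΦ : ∀ g, Φ (gm _ _ _ _ _ g) = gm K p _ _ _ g := by
    intro g
    rw [gm, map_mul, map_pow, map_pow, hΦu, hΦv, gm]
  have hinj : Function.Injective Φ := by
    rw [injective_iff_map_eq_zero]
    intro x hx
    obtain ⟨c, rfl⟩ := exists_coeff hp hξ0 x
    rw [map_sum] at hx
    have hx' : ∑ g, φ (c g) • gm K p (φ ξ) (φ β) (φ α) g = 0 := by
      rw [← hx]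
      refine Finset.sum_congr rfl fun g _ => ?_
      rw [map_smul, hΦ, hsm]
    have h0 := coeff_zero hp hξ' (by rw [hβ']; exact T_ne_zero k 1)
      (by rw [hα']; exact T_ne_zero k 0) _ hx'
    refine Finset.sum_eq_zero fun g _ => ?_
    have h1 : φ (c g) = 0 := congrFun h0 g
    rw [(map_eq_zero_iff φ φ.injective).1 h1, zero_smul]
  have hnt := nontrivial_symb (F := F) (ξ := ξ) (a := β) (b := α) (by omega : 0 < p) hξ
  have hfin := finite_symb (F := F) (ξ := ξ) (a := β) (b := α) hp hξ0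
  refine ⟨hnt, fun x hx => ?_⟩
  have hΦx : IsUnit (Φ x) := hB.2 _ fun h => hx (hinj (by rw [h, map_zero]))
  -- left multiplication by `x` is injective, hence surjective
  have hl : Function.Injective (LinearMap.mulLeft F x) := by
    intro y z hyz
    apply hinj
    have h := congrArg Φ (show x * y = x * z from hyz)
    rw [map_mul, map_mul] at h
    exact hΦx.mul_left_cancel h
  have hr : Function.Injective (LinearMap.mulRight F x) := by
    intro y z hyz
    apply hinj
    have h := congrArg Φ (show y * x = z * x from hyz)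
    rw [map_mul, map_mul] at h
    exact hΦx.mul_right_cancel h
  obtain ⟨y, hy⟩ := (LinearMap.injective_iff_surjective.1 hl) 1
  obtain ⟨z, hz⟩ := (LinearMap.injective_iff_surjective.1 hr) 1
  change x * y = 1 at hy
  change z * x = 1 at hz
  have hzy : z = y := by rw [← mul_one z, ← hy, ← mul_assoc, hz, one_mul]
  subst hzy
  exact ⟨⟨x, z, hy, hz⟩, rfl⟩

end generic

/-- `A` is the symbol algebra `(α, β)_{n, F}`: it is generated by elements `x`, `y` with
`x ^ n = α`, `y ^ n = β`, `y x = ω x y`, and has dimension `n ^ 2`. -/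
def IsSymbolAlgebra (F A : Type) [Field F] [Ring A] [Algebra F A] (n : ℕ) (ω α β : F) : Prop :=
  ∃ x y : A, x ^ n = algebraMap F A α ∧ y ^ n = algebraMap F A β ∧ y * x = ω • (x * y) ∧
    Algebra.adjoin F {x, y} = ⊤ ∧ Module.finrank F A = n ^ 2

/-- `A` is a central division `F`-algebra of degree `n`. -/
def IsCentralDivision (F A : Type) [Field F] [Ring A] [Algebra F A] (n : ℕ) : Prop :=
  IsDivisionAlg A ∧ Algebra.IsCentral F A ∧ Module.finrank F A = n ^ 2

/-- The trace of the image of an element under a homomorphism to the `n × n` matrices over an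
extension field is given by `t`. -/
def IsMatrixTrace (F A : Type) [Field F] [Ring A] [Algebra F A] (n : ℕ) (t : A →ₗ[F] F) : Prop :=
  ∀ (K : Type) [Field K] [Algebra F K] (f : A →ₐ[F] Matrix (Fin n) (Fin n) K) (x : A),
    (f x).trace = algebraMap F K (t x)

/-- There is a subspace of dimension larger than `⌊(n ^ 2 - 1) / r⌋` on which the reduced trace of
`v ^ r` vanishes. -/
def HasLargeSubspace (F A : Type) [Field F] [Ring A] [Algebra F A] (n r : ℕ) : Prop :=
  ∃ V : Submodule F A, (∀ v ∈ V, redTrace F A n (v ^ r) = 0) ∧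
    (n ^ 2 - 1) / r < Module.finrank F V

/-- **Large subspaces of the generic symbol algebra on which the reduced trace of `v ^ r`
vanishes.** -/
theorem result (p : ℕ) (hp : p.Prime) (r : ℕ) (hr : 2 ≤ r) (hrp : r ≤ p - 1) (hmod : p % r ≠ 1)
    (k : Type) [Field k] (ω : k) (hω : IsPrimitiveRoot ω p)
    (F : Type) [Field F] [Algebra (MvPolynomial (Fin 2) k) F]
    [IsFractionRing (MvPolynomial (Fin 2) k) F] :
    ∃ (A : Type) (_ : Ring A) (_ : Algebra F A),
      IsSymbolAlgebra F A p (algebraMap (MvPolynomial (Fin 2) k) F (MvPolynomial.C ω))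
        (algebraMap (MvPolynomial (Fin 2) k) F (MvPolynomial.X 0))
        (algebraMap (MvPolynomial (Fin 2) k) F (MvPolynomial.X 1)) ∧
      IsCentralDivision F A p ∧ IsMatrixTrace F A p (redTrace F A p) ∧
      HasLargeSubspace F A p r := by
  have hp2 : 2 ≤ p := hp.two_le
  have hξ := primitive k F p ω hω
  have hξ0 := hξ.ne_zero (by omega)
  have hα0 := X_ne_zero k F 0
  have hβ0 := X_ne_zero k F 1
  have hpF : (p : F) ≠ 0 := by
    have : NeZero p := ⟨hp.pos.ne'⟩
    exact hξ.neZero'.out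
  refine ⟨SymbolAlg F p (ι k F (MvPolynomial.C ω)) (ι k F (MvPolynomial.X 1))
      (ι k F (MvPolynomial.X 0)), inferInstance, inferInstance, ?_,
    ⟨isDivisionAlg_generic k F p hp2 ω hω, isCentral hp2 hξ hβ0 hα0,
    finrank_eq hp2 hξ hβ0 hα0⟩,
    fun K _ _ f x => redTrace_eq hp2 hξ hpF hβ0 hα0 K f x, ?_⟩
  · refine ⟨gv F p _ _ _, gu F p _ _ _, gv_pow, gu_pow, gu_gv, ?_, finrank_eq hp2 hξ hβ0 hα0⟩
    rw [eq_top_iff]
    intro z _
    obtain ⟨c, rfl⟩ := exists_coeff hp2 hξ0 z
    refine Subalgebra.sum_mem _ fun g _ => Subalgebra.smul_mem _ ?_ _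
    exact mul_mem (pow_mem (Algebra.subset_adjoin (by simp)) _)
      (pow_mem (Algebra.subset_adjoin (by simp)) _)
  -- the inverse of `r` modulo `p`
  have := Fact.mk hp
  have hr0 : (r : ZMod p) ≠ 0 := by
    rw [Ne, ZMod.natCast_eq_zero_iff]
    exact fun h => absurd (Nat.le_of_dvd (by omega) h) (by omega)
  obtain ⟨c, hc⟩ : ∃ c : ℕ, (r : ZMod p) * (c : ZMod p) = 1 :=
    ⟨((r : ZMod p)⁻¹).val, by rw [ZMod.natCast_zmod_val, mul_inv_cancel₀ hr0]⟩
  set f := (p - 2) / r with hf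
  have hfr : r * f ≤ p - 2 := Nat.mul_div_le _ _
  refine ⟨U F p _ _ _ c f 1, fun v hv => ?_, ?_⟩
  · refine trace_U hp2 hξ hβ0 hα0 _ (fun x y => redTrace_comm x y) c f r ?_ _
      (U_pow (by omega) hξ0 c f r v hv)
    rintro ⟨s, hs, h0⟩
    push_cast at h0
    rw [hc] at h0
    have h1 : ((1 + s : ℕ) : ZMod p) = 0 := by
      push_cast
      exact h0.symm
    rw [ZMod.natCast_eq_zero_iff] at h1
    exact absurd (Nat.le_of_dvd (by omega) h1) (by omega)
  · rw [le_finrank_U hp2 hξ hβ0 hα0 c f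
      (lt_of_le_of_lt (Nat.div_le_self _ _) (by omega))]
    have hρ := Nat.div_add_mod (p - 2) r
    rw [← hf] at hρ
    have hρ1 : (p - 2) % r < r := Nat.mod_lt _ (by omega)
    have hρ2 : (p - 2) % r ≠ r - 1 := by
      intro h
      apply hmod
      have : p = 1 + r * (f + 1) := by
        rw [mul_add]
        omega
      rw [this, Nat.add_mul_mod_self_left, Nat.mod_eq_of_lt (by omega)]
    have h1 : p ≤ r * (f + 1) := by
      rw [mul_add]
      omega
    rw [Nat.div_lt_iff_lt_mul (by omega)]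
    have h2 : p * p ≤ p * (f + 1) * r := by
      calc p * p ≤ p * (r * (f + 1)) := Nat.mul_le_mul_left p h1
        _ = p * (f + 1) * r := by ring
    have h3 : 0 < p * p := by positivity
    rw [pow_two]
    omega

end Pool.Agent.Results.MP_064e41_al.TraceVanishing
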